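import Pool.Agent.helper66.PX.Spec

/-!
# Row px:CP (MP_3938c6_al): central polynomials (Razmyslov).
-/

set_option autoImplicit false

open Matrix

noncomputable section

namespace Pool.Agent.PX

universe u v w

/-- a commutator of two matrices. -/
def CP_S (L : Type w) [Field L] (n : ℕ) : Set (Matrix (Fin n) (Fin n) L) :=
  {z | ∃ x y : Matrix (Fin n) (Fin n) L, z = x * y - y * x}

theorem CP_trace_comm (L : Type w) [Field L] (n : ℕ) (z : Matrix (Fin n) (Fin n) L) (hz : z ∈ CP_S L n) :
    Matrix.trace z = 0 := by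
  obtain ⟨x, y, rfl⟩ := hz
  rw [Matrix.trace_sub, Matrix.trace_mul_comm x y, sub_self]

theorem CP_single_ne (L : Type w) [Field L] (n : ℕ) (i j : Fin n) (h : i ≠ j) (c : L) :
    Matrix.single i j c ∈ CP_S L n := by
  refine ⟨Matrix.single i i 1, Matrix.single i j c, ?_⟩
  rw [Matrix.single_mul_single_same, Matrix.single_mul_single_of_ne _ _ _ _ h.symm, one_mul, sub_zero]

theorem CP_single_sub (L : Type w) [Field L] (n : ℕ) (i j : Fin n) (c : L) :
    Matrix.single i i c - Matrix.single j j c ∈ CP_S L n := by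
  refine ⟨Matrix.single i j c, Matrix.single j i 1, ?_⟩
  rw [Matrix.single_mul_single_same, Matrix.single_mul_single_same, one_mul, mul_one]

/-- the identity and the commutators span all matrices. -/
theorem CP_span (L : Type w) [Field L] [CharZero L] (n : ℕ) (hn : 1 ≤ n) :
    (⊤ : Submodule L (Matrix (Fin n) (Fin n) L)) ≤
      Submodule.span L (insert (1 : Matrix (Fin n) (Fin n) L) (CP_S L n)) := by
  intro A _
  have hsub : CP_S L n ⊆ insert (1 : Matrix (Fin n) (Fin n) L) (CP_S L n) := Set.subset_insert _ _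
  rw [Matrix.matrix_eq_sum_single A]
  refine Submodule.sum_mem _ fun i _ => Submodule.sum_mem _ fun j _ => ?_
  by_cases hij : i = j
  · subst hij
    have hn0 : (n : L) ≠ 0 := by
      have : n ≠ 0 := by omega
      exact_mod_cast this
    have h1 : (1 : Matrix (Fin n) (Fin n) L) = ∑ j : Fin n, Matrix.single j j (1 : L) := by
      ext a b
      rw [Matrix.sum_apply]
      simp only [Matrix.single_apply]
      by_cases hab : a = b
      · subst hab
        simp
      · rw [Matrix.one_apply_ne hab]
        symm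
        refine Finset.sum_eq_zero fun c _ => ?_
        rw [if_neg]
        rintro ⟨h1, h2⟩
        exact hab (h1.symm.trans h2)
    have h2 : (n : L) • Matrix.single i i (A i i) =
        (A i i) • (1 : Matrix (Fin n) (Fin n) L) +
          ∑ j : Fin n, (Matrix.single i i (A i i) - Matrix.single j j (A i i)) := by
      rw [Finset.sum_sub_distrib, Finset.sum_const, Finset.card_univ, Fintype.card_fin, h1, Finset.smul_sum]
      simp only [Matrix.smul_single, smul_eq_mul, mul_one]
      rw [add_sub_cancel, ← Nat.cast_smul_eq_nsmul L]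
      rfl
    have h3 : Matrix.single i i (A i i) = (n : L)⁻¹ • ((n : L) • Matrix.single i i (A i i)) := by
      rw [smul_smul, inv_mul_cancel₀ hn0, one_smul]
    rw [h3, h2]
    refine Submodule.smul_mem _ _ (Submodule.add_mem _ ?_ ?_)
    · exact Submodule.smul_mem _ _ (Submodule.subset_span (Set.mem_insert _ _))
    · refine Submodule.sum_mem _ fun j _ => ?_
      exact Submodule.subset_span (hsub (CP_single_sub L n i j _))
  · exact Submodule.subset_span (hsub (CP_single_ne L n i j hij _))

/-- a matrix orthogonal to all trace zero matrices is scalar. -/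
theorem CP_scalar (L : Type w) [Field L] (n : ℕ) (hn : 1 ≤ n) (Z : Matrix (Fin n) (Fin n) L)
    (h : ∀ a : Matrix (Fin n) (Fin n) L, Matrix.trace a = 0 → Matrix.trace (a * Z) = 0) :
    ∃ l : L, Z = l • (1 : Matrix (Fin n) (Fin n) L) := by
  have hoff : ∀ i j : Fin n, i ≠ j → Z i j = 0 := by
    intro i j hij
    have := h (Matrix.single j i 1) (Matrix.trace_single_eq_of_ne j i (1 : L) hij.symm)
    rw [Matrix.trace_single_mul, one_smul] at this
    exact this
  have hdiag : ∀ i j : Fin n, Z i i = Z j j := by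
    intro i j
    have := h (Matrix.single i i 1 - Matrix.single j j 1) (by
      rw [Matrix.trace_sub, Matrix.trace_single_eq_same, Matrix.trace_single_eq_same, sub_self])
    rw [sub_mul, Matrix.trace_sub, Matrix.trace_single_mul, Matrix.trace_single_mul, one_smul, one_smul] at this
    exact sub_eq_zero.mp this
  refine ⟨Z ⟨0, hn⟩ ⟨0, hn⟩, ?_⟩
  ext i j
  rw [Matrix.smul_apply, smul_eq_mul]
  by_cases hij : i = j
  · subst hij
    rw [Matrix.one_apply_eq, mul_one]
    exact hdiag _ _
  · rw [Matrix.one_apply_ne hij, mul_zero]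
    exact hoff i j hij

/-- the trace of `a * RZ` vanishes for dependent families. -/
theorem CP_dep (hCA : CA_stmt.{w, w}) (hTR : TR_stmt.{w}) (L : Type w) [Field L] (k m : ℕ)
    (X : Fin (m + 1) → Matrix (Fin k) (Fin k) L) (y : ℕ → Matrix (Fin k) (Fin k) L)
    (a b : Matrix (Fin k) (Fin k) L)
    (h : ¬ LinearIndependent L
      (Fin.cons a (fun i => X i.succ) : Fin (m + 1) → Matrix (Fin k) (Fin k) L)) :
    Matrix.trace (a * RZ m X y b) = 0 := by
  obtain ⟨F, hF⟩ := hCA L (Matrix (Fin k) (Fin k) L) (m + 1) y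
  rw [hTR L k m X y a b]
  have h0 : Cap (m + 1) (Fin.cons a (fun i => X i.succ) : Fin (m + 1) → Matrix (Fin k) (Fin k) L) y = 0 := by
    rw [← hF]
    exact F.map_linearDependent _ h
  rw [h0, zero_mul, Matrix.trace_zero]

/-- trace zero families of length `n * n` are dependent. -/
theorem CP_hyper (L : Type w) [Field L] (n m : ℕ) (hn : 1 ≤ n) (hm : m + 1 = n * n)
    (X : Fin (m + 1) → Matrix (Fin n) (Fin n) L) (hX : ∀ i, Matrix.trace (X i) = 0) :
    ¬ LinearIndependent L X := by
  intro hli
  have hH : ∀ i, X i ∈ LinearMap.ker (Matrix.traceLinearMap (Fin n) L L) := by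
    intro i
    rw [LinearMap.mem_ker, Matrix.traceLinearMap_apply]
    exact hX i
  have hli' : LinearIndependent L
      (fun i => (⟨X i, hH i⟩ : LinearMap.ker (Matrix.traceLinearMap (Fin n) L L))) := by
    refine LinearIndependent.of_comp (LinearMap.ker (Matrix.traceLinearMap (Fin n) L L)).subtype ?_
    exact hli
  have h1 := hli'.fintype_card_le_finrank
  have h2 : Module.finrank L (LinearMap.ker (Matrix.traceLinearMap (Fin n) L L)) <
      Module.finrank L (Matrix (Fin n) (Fin n) L) := by
    apply Submodule.finrank_lt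
    intro htop
    have : Matrix.single (⟨0, hn⟩ : Fin n) (⟨0, hn⟩ : Fin n) (1 : L) ∈
        LinearMap.ker (Matrix.traceLinearMap (Fin n) L L) := by
      rw [htop]
      exact Submodule.mem_top
    rw [LinearMap.mem_ker, Matrix.traceLinearMap_apply, Matrix.trace_single_eq_same] at this
    exact one_ne_zero this
  rw [Fintype.card_fin] at h1
  rw [Module.finrank_matrix, Module.finrank_self, Fintype.card_fin, mul_one] at h2
  omega

/-- `Cap (n * n)` is zero if it vanishes when all entries but the first are commutators. -/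
theorem CP_ext (hCA : CA_stmt.{w, w}) (L : Type w) [Field L] [CharZero L] (n m : ℕ) (hn : 1 ≤ n)
    (y : ℕ → Matrix (Fin n) (Fin n) L)
    (h : ∀ X : Fin (m + 1) → Matrix (Fin n) (Fin n) L, (∀ i : Fin m, X i.succ ∈ CP_S L n) →
      Cap (m + 1) X y = 0) (X : Fin (m + 1) → Matrix (Fin n) (Fin n) L) :
    Cap (m + 1) X y = 0 := by
  obtain ⟨F, hF⟩ := hCA L (Matrix (Fin n) (Fin n) L) (m + 1) y
  have hF0 : F = 0 := by
    refine Module.Basis.ext_alternating (Module.Basis.ofSpan (CP_span L n hn)) ?_
    intro v hv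
    rw [AlternatingMap.zero_apply]
    set e := Module.Basis.ofSpan (CP_span L n hn) with he
    have hmem : ∀ t, e t ∈ insert (1 : Matrix (Fin n) (Fin n) L) (CP_S L n) := by
      intro t
      exact Module.Basis.ofSpan_subset (CP_span L n hn) ⟨t, rfl⟩
    by_cases hone : ∃ j, e (v j) = 1
    · obtain ⟨j, hj⟩ := hone
      have hcomm : ∀ i, i ≠ j → e (v i) ∈ CP_S L n := by
        intro i hij
        rcases hmem (v i) with h1 | h1
        · exact absurd (hv (e.injective (h1.trans hj.symm))) hij
        · exact h1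
      by_cases hj0 : j = 0
      · subst hj0
        rw [hF]
        exact h _ fun i => hcomm _ (Fin.succ_ne_zero i)
      · have hs := F.map_swap (fun i => e (v i)) (i := 0) (j := j) (Ne.symm hj0)
        have hz : F ((fun i => e (v i)) ∘ (Equiv.swap 0 j)) = 0 := by
          rw [hF]
          refine h _ fun i => ?_
          rw [Function.comp_apply]
          apply hcomm
          intro hc
          have h5 : (i.succ : Fin (m + 1)) = 0 := by
            apply (Equiv.swap 0 j).injective
            rw [hc, Equiv.swap_apply_left]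
          exact Fin.succ_ne_zero i h5
        rw [hz] at hs
        exact neg_eq_zero.mp hs.symm
    · push Not at hone
      rw [hF]
      refine h _ fun i => ?_
      rcases hmem (v i.succ) with h1 | h1
      · exact absurd h1 (hone _)
      · exact h1
  rw [← hF, hF0, AlternatingMap.zero_apply]

theorem CP_EV (R : Type w) [Ring R] (i1 i2 : Algebra ℤ R) (c : List ℕ → ℤ) (s : List ℕ) (x : ℕ → R) :
    @EV ℤ R _ _ i1 c s x = @EV ℤ R _ _ i2 c s x := by
  rw [Subsingleton.elim i1 i2]

/-- the evaluation point of `EV`. -/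
def CP_pt {R : Type w} (a : R) (u v : ℕ → R) (y : ℕ → R) : ℕ → R := fun t =>
  if t = 0 then a else if t % 3 = 1 then u (t / 3) else if t % 3 = 2 then v (t / 3) else y (t / 3 - 1)

theorem CP_pt_0 {R : Type w} (a : R) (u v : ℕ → R) (y : ℕ → R) : CP_pt a u v y 0 = a := by
  simp [CP_pt]

theorem CP_pt_1 {R : Type w} (a : R) (u v : ℕ → R) (y : ℕ → R) (i : ℕ) : CP_pt a u v y (3 * i + 1) = u i := by
  have h1 : (3 * i + 1) % 3 = 1 := by omega
  have h2 : (3 * i + 1) / 3 = i := by omega
  unfold CP_pt
  rw [if_neg (by omega), if_pos h1, h2]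

theorem CP_pt_2 {R : Type w} (a : R) (u v : ℕ → R) (y : ℕ → R) (i : ℕ) : CP_pt a u v y (3 * i + 2) = v i := by
  have h1 : (3 * i + 2) % 3 = 2 := by omega
  have h2 : (3 * i + 2) / 3 = i := by omega
  unfold CP_pt
  rw [if_neg (by omega), if_neg (by omega), if_pos h1, h2]

theorem CP_pt_3 {R : Type w} (a : R) (u v : ℕ → R) (y : ℕ → R) (i : ℕ) : CP_pt a u v y (3 * i + 3) = y i := by
  have h2 : (3 * i + 3) / 3 - 1 = i := by omega
  unfold CP_pt
  rw [if_neg (by omega), if_neg (by omega), if_neg (by omega), h2]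

/-- **CP**. Central polynomials. -/
theorem CP (hCA : CA_stmt.{w, w}) (hCB : CB_stmt.{w}) (hTR : TR_stmt.{w}) (hFR : FR_stmt.{w}) : CP_stmt.{w} := by
  intro n hn
  obtain ⟨m, hm⟩ : ∃ m, m + 1 = n * n := ⟨n * n - 1, by
    have : 1 ≤ n * n := Nat.one_le_iff_ne_zero.mpr (Nat.mul_ne_zero (by omega) (by omega))
    omega⟩
  obtain ⟨s, c, hs, hs0, hEV⟩ := hFR m
  refine ⟨s, c, hs, hs0, ?_⟩
  intro L _ _
  refine ⟨?_, ?_, ?_⟩
  · intro x
    rw [CP_EV _ _ (Ring.toIntAlgebra _), hEV]
    apply CP_scalar L n hn
    intro a ha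
    apply CP_dep hCA hTR
    apply CP_hyper L n m hn hm
    intro i
    refine Fin.cases ?_ (fun j => ?_) i
    · rw [Fin.cons_zero]
      exact ha
    · rw [Fin.cons_succ]
      exact CP_trace_comm L n _ ⟨_, _, rfl⟩
  · by_contra hcon
    push Not at hcon
    have hB := hCB L n hn
    rw [← hm] at hB
    obtain ⟨X, y, hXY⟩ := hB
    apply hXY
    apply CP_ext hCA L n m hn y
    intro X hX
    choose! U V hUV using hX
    -- all traces vanish
    have hkey : ∀ b : Matrix (Fin n) (Fin n) L, Matrix.trace (Cap (m + 1) X y * b) = 0 := by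
      intro b
      have h1 := hTR L n m X y (X 0) b
      have h2 : (Fin.cons (X 0) (fun i => X i.succ) : Fin (m + 1) → Matrix (Fin n) (Fin n) L) = X := by
        funext i
        refine Fin.cases ?_ (fun j => ?_) i
        · rw [Fin.cons_zero]
        · rw [Fin.cons_succ]
      have h4 : ∀ A : Fin m → Matrix (Fin n) (Fin n) L,
          ∃ A' : ℕ → Matrix (Fin n) (Fin n) L, ∀ i : Fin m, A' (i.succ : Fin (m + 1)).val = A i := by
        intro A
        refine ⟨fun t => if h : t - 1 < m then A ⟨t - 1, h⟩ else 0, fun i => ?_⟩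
        have h5 : (i.succ : Fin (m + 1)).val - 1 = i.val := by
          rw [Fin.val_succ]
          omega
        have h6 : (i.succ : Fin (m + 1)).val - 1 < m := by
          rw [h5]
          exact i.isLt
        simp only [dif_pos h6]
        apply congrArg
        apply Fin.ext
        exact h5
      obtain ⟨U', hU'⟩ := h4 U
      obtain ⟨V', hV'⟩ := h4 V
      have h7 := hcon (CP_pt b U' V' y)
      rw [CP_EV _ _ (Ring.toIntAlgebra _), hEV] at h7
      simp only [CP_pt_0, CP_pt_1, CP_pt_2, CP_pt_3] at h7
      have h8 := hTR L n m (fun i : Fin (m + 1) => U' i.val * V' i.val - V' i.val * U' i.val) y (X 0) b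
      rw [h7, mul_zero, Matrix.trace_zero] at h8
      have h9 : (fun i : Fin m => (fun i : Fin (m + 1) => U' i.val * V' i.val - V' i.val * U' i.val) i.succ) =
          (fun i : Fin m => X i.succ) := by
        funext i
        change U' (i.succ : Fin (m + 1)).val * V' (i.succ : Fin (m + 1)).val -
          V' (i.succ : Fin (m + 1)).val * U' (i.succ : Fin (m + 1)).val = X i.succ
        rw [hU', hV']
        exact (hUV i).symm
      rw [h9, h2] at h8
      exact h8.symm
    have h3 : Cap (m + 1) X y = 0 := by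
      rw [Matrix.ext_iff_trace_mul_right]
      intro b
      rw [hkey, zero_mul, Matrix.trace_zero]
    exact h3
  · intro k hk x
    rw [CP_EV _ _ (Ring.toIntAlgebra _), hEV]
    rw [Matrix.ext_iff_trace_mul_left]
    intro a
    rw [mul_zero, Matrix.trace_zero]
    apply CP_dep hCA hTR
    intro hli
    have h1 := hli.fintype_card_le_finrank
    rw [Fintype.card_fin, Module.finrank_matrix, Module.finrank_self, Fintype.card_fin, mul_one, hm] at h1
    have h2 : k * k < n * n := Nat.mul_self_lt_mul_self hk
    omega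

end Pool.Agent.PX
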